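import Mathlib
import Pool.Agent.Run7.h879.HA.Bridge
import Pool.Agent.TH170.FT.Tate

/-!
# The Tate conjecture for the powers of abelian varieties over number fields with one Frobenius
element: one half of all slope types of every CM field of degree `2 r ^ k`

Let `A` be an abelian variety over a number field, of any dimension and with arbitrary
endomorphisms, which has good reduction at some place `v`, with a residue field of `p ^ a` elements.
Suppose that the characteristic polynomial of the Frobenius element at `v` is the product of the
minimal polynomials of Weil numbers `π i` that generate CM fields `K i` of degree `2 g i`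
(`HasFrobenius`); so `dim A = ∑ i, g i`. Nothing is assumed about the Galois groups of the fields `K
i`; they are pairwise independent: for `i ≠ k` and all complex embeddings `φ` of `K i` and `ψ` of `K
k` some automorphism of `ℂ` is the identity on `φ (K i)` and the complex conjugation on `ψ (K k)`
(this is no condition if there is only one field).

We fix an isomorphism `ν` of the algebraic closure of `ℚ_p` with `ℂ`; it defines a `p`-adic
valuation of `ℂ`, with the value one at `p`. Let `M i` be a function with integral values on the
complex embeddings of `K i`, invariant under complex conjugation (the weights). A CM type `Φ i` of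
`K i` (a choice of one element out of each complex conjugate pair of embeddings; there are `2 ^ (g
i)` types), `M i` and a real number `κ ≠ 0` prescribe the slopes `(a + κ M) / 2` (at the embeddings
in `Φ i`) and `(a - κ M) / 2` (outside of `Φ i`) of a Weil number in `K i` (`IsOfType`). If `p`
splits completely in `K i` then, by Honda and Tate, all slopes with rational values between `0` and
`a` that are symmetric in this way occur for abelian varieties over finite fields. The case `M = 1`,
`κ = a` is the case of ordinary reduction. Slopes are rational, so integral weights `M` are no
restriction.

The property `Q` (`Holds`) of a family of types: for all abelian varieties `A` as above with Weil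
numbers `π i` of the slope types `Φ i`, all prime numbers `ℓ` and all `n` and `m`, **each Tate class
in `H^{2 m}(A^n, ℚ_ℓ (m))` lies in the `ℚ_ℓ`-linear span of the classes of algebraic cycles.** So
the Tate conjecture holds for all powers of `A`, over all finite extensions.

In the formal statement `V` is the rational Tate module with the action `ρ` of the Galois group and
the Weil pairing `ω` of a polarization (`IsTateModule`; with the semisimplicity theorem of
Faltings), `χ` is the cyclotomic character. The cohomology of `A ^ n` consists of the alternating
forms on `V ^ n`; a Tate class is a form that is fixed by a subgroup of finite index of the Galois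
group. The classes of cycles of codimension `m` are given by a set `C n m`; what is used is that the
Tate classes of degree two are combinations of classes of divisors (Faltings) and that intersections
of divisors are algebraic cycles (`IsCycleClasses`). That the absence of relations between the
conjugates of the Weil numbers of one Frobenius element implies this was formalized before in the
starting files (MP_c1bb77_ag OneFrobeniusTowers, MP_33b3f9_ag AllCMFields).

**The theorem.** Let `E` be **any CM field of degree `2 g = 2 r ^ k`**, `r` a prime number, of
degree at least `16` if `r = 2`. Nothing is assumed about the Galois group of the normal closure of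
`E`, and nothing about the subfields of `E`.

* (`HalfOfAll`) For all weights `M` (odd if `r = 2`; if `r` is odd then `r` may divide some, but not
  all of them) the property `Q` is true for **at least one half of all `2 ^ g` types** of `E`.
* (`MostWithWeightsOne`) For the weights `M = 1` (for instance in the ordinary case) it is true for
  at least `(1 - 1 / r) 2 ^ g` of the types.
* (`OneOfTwo`) There is a set `B` of embeddings of `E`, stable under complex conjugation, such that
  for **every** type `Φ` it is true for `Φ` or for the symmetric difference of `Φ` and `B`.
* (`SixteenPercent`) There is a number `g₀` such that for every CM field that is **abelian over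
  `ℚ`**, of any degree `2 g ≥ 2 g₀`, and all odd weights it is true for at least 16 percent of all
  `2 ^ g` types; again nothing is assumed on the subfields.

All this is proved more generally for finitely many pairwise independent fields `K i`; the
proportions are then multiplied. The bounds of the starting files (`AlmostAllFrobeniusTypes`,
`AllCMFields`) can say nothing for these fields if they have many CM subfields (for instance for the
multiquadratic ones, where one half is the best possible proportion for the types without
relations).

The proof: if the types have no relations then there are no multiplicative relations between the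
conjugates of the Weil numbers `π i`, so that the Frobenius torus is as large as possible, and the
Tate classes are generated in degree two (`TH170/FT` of the starting files). The proportion of the
types without relations (`NoRelations`) is at least one half by the theorem of the starting files
(`Q29/DP`, `Q29/EP`), which was used there for other conjectures.
-/

set_option autoImplicit false

namespace Pool.Agent.Results.MP_90d181_ag.HalfOfAllTypes

open NumberField Module Pool.Agent.H204R3.CM Pool.Agent.H977R3.CM Pool.Agent.TH170
  Pool.Agent.Q29.EP Pool.Agent.Run7.h879.HA

open Pool.Agent.H204R3.GP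

/-- The Tate conjecture for all powers of the abelian varieties with a Frobenius element whose
characteristic polynomial is the product of the minimal polynomials of Weil numbers `π i` for `p ^ a`
with the slope types `Φ i`, `M i`, for the prime number `ℓ`. -/
def HoldsAt {p : ℕ} [Fact p.Prime] (ν : PadicAlgCl p ≃+* ℂ) {I : Type} [Fintype I]
    (K : I → Type) [∀ i, Field (K i)] [∀ i, NumberField (K i)] [∀ i, IsCMField (K i)]
    (M : ∀ i, (K i →+* ℂ) → ℤ) (Φ : ∀ i, Set (K i →+* ℂ)) (a : ℕ) (π : ∀ i, K i)
    (ℓ : ℕ) [Fact ℓ.Prime] : Prop :=
  ∀ (V Γ : Type) [AddCommGroup V] [Module ℚ_[ℓ] V] [FiniteDimensional ℚ_[ℓ] V] [Group Γ]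
    (ρ : Representation ℚ_[ℓ] Γ V) (χ : Γ →* ℚ_[ℓ]) (ω : V →ₗ[ℚ_[ℓ]] V →ₗ[ℚ_[ℓ]] ℚ_[ℓ])
    (D : ∀ n : ℕ, Set ((Fin n → V) [⋀^Fin 2]→ₗ[ℚ_[ℓ]] ℚ_[ℓ]))
    (C : ∀ n m : ℕ, Set ((Fin n → V) [⋀^Fin m × Fin 2]→ₗ[ℚ_[ℓ]] ℚ_[ℓ])),
    FT.IsOfType ν a K M Φ π → FT.IsTateModule ρ χ ω → FT.IsCycleClasses ρ χ D C →
      FT.HasFrobenius ρ χ p a π → ∀ (n m : ℕ) (f : (Fin n → V) [⋀^Fin m × Fin 2]→ₗ[ℚ_[ℓ]] ℚ_[ℓ]),
        IsTateClass ρ χ m f → f ∈ Submodule.span ℚ_[ℓ] (C n m)

/-- The same for all Weil numbers with the slope types `Φ i`, `M i` and all prime numbers `ℓ`. -/
def Holds {p : ℕ} [Fact p.Prime] (ν : PadicAlgCl p ≃+* ℂ) {I : Type} [Fintype I]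
    (K : I → Type) [∀ i, Field (K i)] [∀ i, NumberField (K i)] [∀ i, IsCMField (K i)]
    (M : ∀ i, (K i →+* ℂ) → ℤ) (Φ : ∀ i, Set (K i →+* ℂ)) : Prop :=
  ∀ (a : ℕ) (π : ∀ i, K i) (ℓ : ℕ) [Fact ℓ.Prime], 0 < a → HoldsAt ν K M Φ a π ℓ

/-- The property `Holds` of the families of slope types. -/
def Q : TypeProperty := fun _ _ ν _ _ K _ _ _ M Φ => Holds ν K M Φ

/-- **The Tate conjecture for the powers of abelian varieties over number fields with a Frobenius element
with one half of all slope types of every CM field of degree `2 r ^ k`.** -/
theorem result : HalfOfAll Q ∧ MostWithWeightsOne Q ∧ OneOfTwo Q ∧ SixteenPercent Q :=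
  four (of_notMem fun _ _ _ _ _ _ _ _ _ _ _ hind hM hΦ hnd =>
    fun _ _ _ _ ha _ _ _ _ _ _ _ _ _ _ _
      hπ hR hC hF n m f hf => FT.tate_of_types hind hM hΦ hnd ha hπ hR hC hF n m f hf)

end Pool.Agent.Results.MP_90d181_ag.HalfOfAllTypes
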